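import Pool.Agent.H64.TSE.Numeric

/-!
# Colourings with label-wise independent classes, for any number of colours

The colouring lemma for systems of `n` graphs in which every finite vertex set with at least two
points can be split in two parts joined by few edges of one label only.
-/

namespace Pool.Agent.H64.TSE

open Finset

variable {V : Type*} [DecidableEq V]

/-- The splitting property of a system of `n` graphs. -/
def Splits {n : ℕ} (Adj : Fin n → V → V → Prop) : Prop :=
  ∀ B : Finset V, 1 < B.card → ∃ B₁ ⊆ B, B₁.Nonempty ∧ (B \ B₁).Nonempty ∧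
    ∃ (j : Fin n) (Y Z : Finset V), (Y.card : ℝ) ≤ (5 / 4 : ℝ) ^ n ∧
      (Z.card : ℝ) ≤ (5 / 4 : ℝ) ^ n ∧
      ∀ a ∈ B₁, ∀ b ∈ B \ B₁, ∀ i, Adj i a b → i = j ∧ a ∈ Y ∧ b ∈ Z

theorem color_finset {n : ℕ} (hn : 11 ≤ n) (Adj : Fin n → V → V → Prop) (hsymm : ∀ i a b, Adj i a b → Adj i b a)
    (hirr : ∀ i a, ¬ Adj i a a) (hs : Splits Adj) :
    ∀ (N : ℕ) (B : Finset V), B.card ≤ N → ∀ Φ : Fin n → Finset V,
      wt n (fun i => (Φ i ∩ B).card) < n →
      ∃ c : V → Fin n, (∀ b ∈ B, b ∉ Φ (c b)) ∧
        ∀ a ∈ B, ∀ b ∈ B, ∀ i, Adj i a b → ¬ (c a = i ∧ c b = i) := by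
  intro N
  induction N with
  | zero =>
    intro B hB Φ _
    have : B = ∅ := Finset.card_eq_zero.mp (Nat.le_zero.mp hB)
    subst this
    exact ⟨fun _ => ⟨0, by omega⟩, by simp, by simp⟩
  | succ N ih =>
    intro B hB Φ hΦ
    by_cases hB1 : B.card ≤ 1
    · by_cases hBe : B = ∅
      · subst hBe
        exact ⟨fun _ => ⟨0, by omega⟩, by simp, by simp⟩
      · obtain ⟨v, hv⟩ := Finset.nonempty_iff_ne_empty.mpr hBe
        have hBv : B = {v} := by
          apply Finset.eq_singleton_iff_unique_mem.mpr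
          exact ⟨hv, fun x hx => Finset.card_le_one.mp hB1 x hx v hv⟩
        have : ∃ j, v ∉ Φ j := by
          by_contra hcon
          push Not at hcon
          have h1 : ∀ i, (Φ i ∩ B).card = 1 := by
            intro i
            rw [hBv, Finset.inter_singleton_of_mem (hcon i)]
            simp
          have h2 : wt n (fun i => (Φ i ∩ B).card) = n := by
            unfold wt
            simp [h1]
          linarith
        obtain ⟨j, hj⟩ := this
        refine ⟨fun _ => j, ?_, ?_⟩
        · intro b hb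
          rw [hBv, Finset.mem_singleton] at hb
          rw [hb]; exact hj
        · intro a ha b hb i hi
          rw [hBv, Finset.mem_singleton] at ha hb
          subst ha; subst hb
          exact absurd hi (hirr _ _)
    · push Not at hB1
      obtain ⟨B₁, hsub, hne₁, hne₂, j, Y, Z, hY, hZ, hadj⟩ := hs B hB1
      set B₂ := B \ B₁ with hB₂
      have hcard : B₁.card + B₂.card = B.card := by
        rw [hB₂, Finset.card_sdiff_of_subset hsub]
        have := Finset.card_le_card hsub
        omega
      have hc1 : 0 < B₁.card := hne₁.card_pos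
      have hc2 : 0 < B₂.card := hne₂.card_pos
      have hdisj : Disjoint B₁ B₂ := Finset.disjoint_sdiff
      have hunion : B₁ ∪ B₂ = B := Finset.union_sdiff_of_subset hsub
      have hsum : ∀ i, (Φ i ∩ B).card = (Φ i ∩ B₁).card + (Φ i ∩ B₂).card := by
        intro i
        rw [← hunion, Finset.inter_union_distrib_left, Finset.card_union_of_disjoint]
        exact hdisj.mono (Finset.inter_subset_right) (Finset.inter_subset_right)
      have hΦ' : wt n (fun i => (Φ i ∩ B₁).card + (Φ i ∩ B₂).card) < n := by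
        have : (fun i => (Φ i ∩ B).card) = fun i => (Φ i ∩ B₁).card + (Φ i ∩ B₂).card :=
          funext hsum
        rw [← this]; exact hΦ
      have key := wt_split hn _ _ j Y.card Z.card hY hZ hΦ'
      have glue : (∃ c₁ c₂ : V → Fin n,
          (∀ b ∈ B₁, b ∉ Φ (c₁ b)) ∧ (∀ b ∈ B₂, b ∉ Φ (c₂ b)) ∧
          (∀ a ∈ B₁, ∀ b ∈ B₁, ∀ i, Adj i a b → ¬ (c₁ a = i ∧ c₁ b = i)) ∧
          (∀ a ∈ B₂, ∀ b ∈ B₂, ∀ i, Adj i a b → ¬ (c₂ a = i ∧ c₂ b = i)) ∧
          ∀ a ∈ B₁, ∀ b ∈ B₂, ∀ i, Adj i a b → ¬ (c₁ a = i ∧ c₂ b = i)) →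
          ∃ c : V → Fin n, (∀ b ∈ B, b ∉ Φ (c b)) ∧
            ∀ a ∈ B, ∀ b ∈ B, ∀ i, Adj i a b → ¬ (c a = i ∧ c b = i) := by
        rintro ⟨c₁, c₂, h1, h2, h3, h4, h5⟩
        have hnm : ∀ x ∈ B₂, x ∉ B₁ := fun x hx hx' => (Finset.disjoint_left.mp hdisj hx') hx
        refine ⟨fun x => if x ∈ B₁ then c₁ x else c₂ x, ?_, ?_⟩
        · intro b hb
          rw [← hunion, Finset.mem_union] at hb
          rcases hb with hb | hb
          · simp only [hb, if_true]; exact h1 b hb
          · simp only [hnm b hb, if_false]; exact h2 b hb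
        · intro a ha b hb i hi
          rw [← hunion, Finset.mem_union] at ha hb
          rcases ha with ha | ha <;> rcases hb with hb | hb
          · simp only [ha, hb, if_true]; exact h3 a ha b hb i hi
          · simp only [ha, hnm b hb, if_true, if_false]; exact h5 a ha b hb i hi
          · simp only [hb, hnm a ha, if_true, if_false]
            intro h
            exact h5 b hb a ha i (hsymm _ _ _ hi) ⟨h.2, h.1⟩
          · simp only [hnm a ha, hnm b hb, if_false]; exact h4 a ha b hb i hi
      apply glue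
      have ext : ∀ (C : Finset V) (W : Finset V), C.card ≤ N →
          wt n (fun i => (Φ i ∩ C).card + if i = j then W.card else 0) < n →
          ∃ c : V → Fin n, (∀ b ∈ C, b ∉ Φ (c b)) ∧ (∀ b ∈ C, b ∈ W → c b ≠ j) ∧
            ∀ a ∈ C, ∀ b ∈ C, ∀ i, Adj i a b → ¬ (c a = i ∧ c b = i) := by
        intro C W hC hw
        obtain ⟨c, hc1, hc2⟩ := ih C hC (fun i => Φ i ∪ if i = j then W else ∅) (by
          refine lt_of_le_of_lt (wt_mono hn ?_) hw
          intro i
          by_cases h : i = j
          · simp only [h, if_true]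
            rw [Finset.union_inter_distrib_right]
            refine (Finset.card_union_le _ _).trans ?_
            exact Nat.add_le_add_left (Finset.card_le_card Finset.inter_subset_left) _
          · simp [h])
        refine ⟨c, ?_, ?_, hc2⟩
        · intro b hb hb'
          exact hc1 b hb (Finset.mem_union_left _ hb')
        · intro b hb hbW hcj
          have := hc1 b hb
          rw [hcj] at this
          simp only [if_true, Finset.mem_union] at this
          exact this (Or.inr hbW)
      have ext0 : ∀ C : Finset V, C ⊆ B → C.card ≤ N →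
          ∃ c : V → Fin n, (∀ b ∈ C, b ∉ Φ (c b)) ∧
            ∀ a ∈ C, ∀ b ∈ C, ∀ i, Adj i a b → ¬ (c a = i ∧ c b = i) := by
        intro C hCB hC
        apply ih C hC Φ
        refine lt_of_le_of_lt (wt_mono hn ?_) hΦ
        intro i
        exact Finset.card_le_card (Finset.inter_subset_inter_left hCB)
      rcases key with key | key
      · obtain ⟨c₁, h1, h2, h3⟩ := ext B₁ Y (by omega) key
        obtain ⟨c₂, h4, h5⟩ := ext0 B₂ (Finset.sdiff_subset) (by omega)
        refine ⟨c₁, c₂, h1, h4, h3, h5, ?_⟩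
        intro a ha b hb i hi h
        obtain ⟨hij, haY, -⟩ := hadj a ha b hb i hi
        exact h2 a ha haY (by rw [h.1, hij])
      · obtain ⟨c₂, h1, h2, h3⟩ := ext B₂ Z (by omega) key
        obtain ⟨c₁, h4, h5⟩ := ext0 B₁ hsub (by omega)
        refine ⟨c₁, c₂, h4, h1, h5, h3, ?_⟩
        intro a ha b hb i hi h
        obtain ⟨hij, -, hbZ⟩ := hadj a ha b hb i hi
        exact h2 b hb hbZ (by rw [h.2, hij])

/-- Compactness: a global colouring. -/
theorem exists_coloring {n : ℕ} (hn : 11 ≤ n) (Adj : Fin n → V → V → Prop) (hsymm : ∀ i a b, Adj i a b → Adj i b a)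
    (hirr : ∀ i a, ¬ Adj i a a) (hs : Splits Adj) :
    ∃ c : V → Fin n, ∀ a b i, Adj i a b → ¬ (c a = i ∧ c b = i) := by
  let S : {p : Fin n × V × V // Adj p.1 p.2.1 p.2.2} → Set (V → Fin n) :=
    fun p => {c | ¬ (c p.1.2.1 = p.1.1 ∧ c p.1.2.2 = p.1.1)}
  have hclosed : ∀ p, IsClosed (S p) := by
    intro p
    have hc1 : Continuous (fun c : V → Fin n => c p.1.2.1) := continuous_apply _
    have hc2 : Continuous (fun c : V → Fin n => c p.1.2.2) := continuous_apply _
    have h1 : IsOpen {c : V → Fin n | c p.1.2.1 = p.1.1} :=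
      (isOpen_discrete ({p.1.1} : Set (Fin n))).preimage hc1
    have h2 : IsOpen {c : V → Fin n | c p.1.2.2 = p.1.1} :=
      (isOpen_discrete ({p.1.1} : Set (Fin n))).preimage hc2
    exact (h1.inter h2).isClosed_compl
  have hne : (⋂ p, S p).Nonempty := by
    apply CompactSpace.iInter_nonempty hclosed
    intro F
    let B : Finset V := F.biUnion (fun p => {p.1.2.1, p.1.2.2})
    obtain ⟨c, -, hc⟩ := color_finset hn Adj hsymm hirr hs B.card B le_rfl (fun _ => ∅) (by
      simp only [Finset.empty_inter, Finset.card_empty]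
      rw [wt_zero hn]
      exact_mod_cast (by omega : 0 < n))
    refine ⟨c, ?_⟩
    simp only [Set.mem_iInter]
    intro p hp
    apply hc _ _ _ _ _ p.2
    · exact Finset.mem_biUnion.mpr ⟨p, hp, by simp⟩
    · exact Finset.mem_biUnion.mpr ⟨p, hp, by simp⟩
  obtain ⟨c, hc⟩ := hne
  refine ⟨c, fun a b i h => ?_⟩
  have := Set.mem_iInter.mp hc ⟨(i, a, b), h⟩
  exact this

end Pool.Agent.H64.TSE
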