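import Mathlib

/-!
# The weight of a demand vector

For `n` colours and demand vector `a` the weight is the sum of the powers `(a i) ^ (4 / n)`.
-/

namespace Pool.Agent.H64.TSE

open Finset

/-- The exponent `4 / n`. -/
noncomputable def ex (n : ℕ) : ℝ := 4 / (n : ℝ)

/-- The weight of a demand vector. -/
noncomputable def wt (n : ℕ) (a : Fin n → ℕ) : ℝ := ∑ i, (a i : ℝ) ^ ex n

theorem ex_pos {n : ℕ} (hn : 11 ≤ n) : 0 < ex n := by
  unfold ex
  have : (0 : ℝ) < n := by exact_mod_cast (by omega : 0 < n)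
  positivity

theorem ex_le_one {n : ℕ} (hn : 11 ≤ n) : ex n ≤ 1 := by
  unfold ex
  have : (11 : ℝ) ≤ n := by exact_mod_cast hn
  rw [div_le_one (by linarith)]
  linarith

theorem wt_mono {n : ℕ} (hn : 11 ≤ n) {a b : Fin n → ℕ} (h : ∀ i, a i ≤ b i) :
    wt n a ≤ wt n b := by
  apply Finset.sum_le_sum
  intro i _
  exact Real.rpow_le_rpow (by positivity) (by exact_mod_cast h i) (ex_pos hn).le

theorem add_rpow_le {s : ℝ} (hs : 0 ≤ s) (hs1 : s ≤ 1) (x y : ℝ) (hx : 0 ≤ x) (hy : 0 ≤ y) :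
    (x + y) ^ s ≤ x ^ s + y ^ s :=
  Real.rpow_add_le_add_rpow hx hy hs hs1

theorem add_rpow_ge {s : ℝ} (hs : 0 ≤ s) (hs1 : s ≤ 1) (x y : ℝ) (hx : 0 ≤ x) (hy : 0 ≤ y) :
    x ^ s + y ^ s ≤ 2 * (2 : ℝ) ^ (-s) * (x + y) ^ s := by
  have h := (Real.concaveOn_rpow hs hs1).2 (Set.mem_Ici.mpr hx) (Set.mem_Ici.mpr hy)
    (by norm_num : (0 : ℝ) ≤ 1 / 2) (by norm_num : (0 : ℝ) ≤ 1 / 2) (by norm_num)
  simp only [smul_eq_mul] at h
  have h2 : (1 / 2 * x + 1 / 2 * y) ^ s = (2 : ℝ) ^ (-s) * (x + y) ^ s := by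
    rw [show 1 / 2 * x + 1 / 2 * y = (2 : ℝ)⁻¹ * (x + y) by ring,
      Real.mul_rpow (by norm_num) (by positivity), Real.inv_rpow (by norm_num),
      Real.rpow_neg (by norm_num)]
  rw [h2] at h
  nlinarith [h]

/-- The numeric inequality behind the number eleven. -/
theorem two_rpow_le {n : ℕ} (hn : 11 ≤ n) :
    (2 : ℝ) ^ (-ex n) * n ≤ n - (5 / 4 : ℝ) ^ 4 := by
  have hn' : (11 : ℝ) ≤ n := by exact_mod_cast hn
  have hn0 : (0 : ℝ) < n := by linarith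
  have h1 : (2 : ℝ) ^ (-(4 / 11 : ℝ)) ≤ 2191 / 2816 := by
    have h2 : ((2 : ℝ) ^ (-(4 / 11 : ℝ))) ^ (11 : ℕ) ≤ (2191 / 2816 : ℝ) ^ (11 : ℕ) := by
      rw [← Real.rpow_natCast, ← Real.rpow_mul (by norm_num)]
      rw [show (-(4 / 11 : ℝ)) * ((11 : ℕ) : ℝ) = -(4 : ℝ) by norm_num]
      rw [Real.rpow_neg (by norm_num), show (2 : ℝ) ^ (4 : ℝ) = 16 by
        rw [show (4 : ℝ) = ((4 : ℕ) : ℝ) by norm_num, Real.rpow_natCast]; norm_num]
      norm_num
    exact le_of_pow_le_pow_left₀ (by norm_num) (by norm_num) h2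
  have h3 : (2 : ℝ) ^ (-ex n) = ((2 : ℝ) ^ (-(4 / 11 : ℝ))) ^ (11 / (n : ℝ)) := by
    rw [← Real.rpow_mul (by norm_num)]
    congr 1
    unfold ex
    field_simp
  have h4 : ((2 : ℝ) ^ (-(4 / 11 : ℝ))) ^ (11 / (n : ℝ)) ≤ (2191 / 2816 : ℝ) ^ (11 / (n : ℝ)) :=
    Real.rpow_le_rpow (by positivity) h1 (by positivity)
  have h5 : (1 + (-(625 / 2816) : ℝ)) ^ (11 / (n : ℝ)) ≤ 1 + (11 / (n : ℝ)) * (-(625 / 2816)) := by
    apply rpow_one_add_le_one_add_mul_self (by norm_num) (by positivity)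
    rw [div_le_one hn0]; exact hn'
  have h6 : (2 : ℝ) ^ (-ex n) ≤ 1 + (11 / (n : ℝ)) * (-(625 / 2816)) := by
    rw [h3]
    refine h4.trans ?_
    rw [show (2191 / 2816 : ℝ) = 1 + (-(625 / 2816) : ℝ) by norm_num]
    exact h5
  calc (2 : ℝ) ^ (-ex n) * n ≤ (1 + (11 / (n : ℝ)) * (-(625 / 2816))) * n :=
        mul_le_mul_of_nonneg_right h6 hn0.le
    _ = n - (5 / 4 : ℝ) ^ 4 := by
        field_simp
        ring

theorem pow_ex {n : ℕ} (hn : 11 ≤ n) {p : ℕ} (hp : (p : ℝ) ≤ (5 / 4 : ℝ) ^ n) :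
    (p : ℝ) ^ ex n ≤ (5 / 4 : ℝ) ^ 4 := by
  have hn0 : (0 : ℝ) < n := by exact_mod_cast (by omega : 0 < n)
  calc (p : ℝ) ^ ex n ≤ ((5 / 4 : ℝ) ^ n) ^ ex n :=
        Real.rpow_le_rpow (by positivity) hp (ex_pos hn).le
    _ = (5 / 4 : ℝ) ^ 4 := by
        rw [← Real.rpow_natCast, ← Real.rpow_mul (by norm_num)]
        unfold ex
        rw [mul_div_cancel₀ _ hn0.ne']
        rw [show (4 : ℝ) = ((4 : ℕ) : ℝ) by norm_num, Real.rpow_natCast]

theorem wt_bump {n : ℕ} (hn : 11 ≤ n) (a : Fin n → ℕ) (j : Fin n) (p : ℕ)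
    (hp : (p : ℝ) ≤ (5 / 4 : ℝ) ^ n) :
    wt n (fun i => a i + if i = j then p else 0) ≤ wt n a + (5 / 4 : ℝ) ^ 4 := by
  have h1 : wt n (fun i => a i + if i = j then p else 0) ≤
      ∑ i, ((a i : ℝ) ^ ex n + if i = j then (5 / 4 : ℝ) ^ 4 else 0) := by
    apply Finset.sum_le_sum
    intro i _
    by_cases h : i = j
    · simp only [h, if_true]
      push_cast
      calc ((a j : ℝ) + p) ^ ex n ≤ (a j : ℝ) ^ ex n + (p : ℝ) ^ ex n :=
            add_rpow_le (ex_pos hn).le (ex_le_one hn) _ _ (by positivity) (by positivity)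
        _ ≤ _ := by
            have := pow_ex hn hp
            linarith
    · simp [h]
  refine h1.trans ?_
  rw [Finset.sum_add_distrib]
  simp [wt]

/-- The numeric heart of the matter. -/
theorem wt_split {n : ℕ} (hn : 11 ≤ n) (a b : Fin n → ℕ) (j : Fin n) (p q : ℕ)
    (hp : (p : ℝ) ≤ (5 / 4 : ℝ) ^ n) (hq : (q : ℝ) ≤ (5 / 4 : ℝ) ^ n)
    (h : wt n (fun i => a i + b i) < n) :
    wt n (fun i => a i + if i = j then p else 0) < n ∨
      wt n (fun i => b i + if i = j then q else 0) < n := by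
  by_contra hcon
  push Not at hcon
  obtain ⟨ha, hb⟩ := hcon
  have ha' := wt_bump hn a j p hp
  have hb' := wt_bump hn b j q hq
  have hab : wt n a + wt n b ≤ 2 * (2 : ℝ) ^ (-ex n) * wt n (fun i => a i + b i) := by
    unfold wt
    rw [← Finset.sum_add_distrib, Finset.mul_sum]
    apply Finset.sum_le_sum
    intro i _
    push_cast
    exact add_rpow_ge (ex_pos hn).le (ex_le_one hn) _ _ (by positivity) (by positivity)
  have h2 := two_rpow_le hn
  have hpos : (0 : ℝ) < (2 : ℝ) ^ (-ex n) := by positivity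
  have h3 : 2 * (2 : ℝ) ^ (-ex n) * wt n (fun i => a i + b i) < 2 * (2 : ℝ) ^ (-ex n) * n :=
    mul_lt_mul_of_pos_left h (by positivity)
  linarith

/-- The weight of the demand vector of a single vertex that is refused by every colour. -/
theorem wt_one (n : ℕ) : wt n (fun _ => 1) = n := by
  simp [wt]

/-- The weight of the zero vector. -/
theorem wt_zero {n : ℕ} (hn : 11 ≤ n) : wt n (fun _ => 0) = 0 := by
  simp [wt, (ex_pos hn).ne']

end Pool.Agent.H64.TSE
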